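import Pool.Agent.helper71.DSW.SpecB

set_option autoImplicit false

namespace Pool.Agent.DSW

open Equiv Finset Function Pool.Agent.helper48.PP
open scoped ENNReal Classical

theorem B3N_cell {L : ℕ} {e e' : Arr L} {u : Fin L × Fin L} :
    u ∉ mov e e' ↔ e'.1 u.1 u.2 = e.1 u.1 u.2 ∧ e'.2 u.2 u.1 = e.2 u.2 u.1 := by
  unfold mov cellAt
  simp only [Finset.mem_filter, Finset.mem_univ, true_and, ne_eq, not_not, Prod.mk.injEq]

theorem B3N (hRUN : RUN_stmt) (hPOS : POS_stmt) : B3N_stmt := by
  intro L a c R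
  let Sq : (Fin (L + 1) → ℕ) → Finset (Fin L) → Finset (Fin L → ℕ) := fun g Q =>
    (Fintype.piFinset fun _ : Fin L => Finset.range (pos g L)).filter
      fun s => StrictMono s ∧ ∀ i ∉ Q, s i = pos g (i : ℕ)
  have hSq : ∀ g Q s, s ∈ Sq g Q ↔ (∀ i, s i < pos g L) ∧ StrictMono s ∧
      ∀ i ∉ Q, s i = pos g (i : ℕ) := by
    intro g Q s
    simp only [Sq, Finset.mem_filter, Fintype.mem_piFinset, Finset.mem_range]
  let P1 : Finset (Fin L → Fin L → ℕ) := Fintype.piFinset fun b => Sq (a b) (rw1 R b)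
  let P2 : Finset (Fin L → Fin L → ℕ) := Fintype.piFinset fun i => Sq (c i) (rw2 R i)
  have hsub : ((Bad (len a) (len c) (arr a c)).filter fun F => F.image Prod.fst = R) ⊆
      (P1 ×ˢ P2).image (fun e' : Arr L => R.image (cellAt e')) := by
    intro F hF
    rw [Finset.mem_filter] at hF
    obtain ⟨hF1, hF2⟩ := hF
    unfold Bad at hF1
    rw [Finset.mem_filter] at hF1
    obtain ⟨-, e', hmove, hF3⟩ := hF1
    have hR : mov (arr a c) e' = R := by
      rw [← hF2, hF3, Finset.image_image]
      have : (Prod.fst ∘ cellAt e') = id := rfl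
      rw [this, Finset.image_id]
    obtain ⟨v1, v2, v3, v4⟩ := hmove.1
    rw [Finset.mem_image]
    refine ⟨e', ?_, ?_⟩
    · rw [Finset.mem_product]
      refine ⟨Fintype.mem_piFinset.2 fun b => (hSq _ _ _).2 ⟨fun i => v3 b i, v1 b, ?_⟩,
        Fintype.mem_piFinset.2 fun i => (hSq _ _ _).2 ⟨fun b => v4 i b, v2 i, ?_⟩⟩
      · intro i hi
        have : (b, i) ∉ mov (arr a c) e' := by
          rw [hR]
          intro h
          exact hi (by unfold rw1; rw [Finset.mem_filter]; exact ⟨Finset.mem_univ _, h⟩)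
        exact (B3N_cell.1 this).1
      · intro b hb
        have : (b, i) ∉ mov (arr a c) e' := by
          rw [hR]
          intro h
          exact hb (by unfold rw2; rw [Finset.mem_filter]; exact ⟨Finset.mem_univ _, h⟩)
        exact (B3N_cell.1 this).2
    · rw [hF3, hR]
  refine (Finset.card_le_card hsub).trans (Finset.card_image_le.trans ?_)
  rw [Finset.card_product]
  unfold n3
  refine Nat.mul_le_mul ?_ ?_
  · show (Fintype.piFinset fun b => Sq (a b) (rw1 R b)).card ≤ _
    rw [Fintype.card_piFinset]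
    exact Finset.prod_le_prod' fun b _ => hRUN L (a b) (rw1 R b)
  · show (Fintype.piFinset fun i => Sq (c i) (rw2 R i)).card ≤ _
    rw [Fintype.card_piFinset]
    exact Finset.prod_le_prod' fun i _ => hRUN L (c i) (rw2 R i)

end Pool.Agent.DSW
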