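import Pool.Agent.helper71.DSW.SpecB

set_option autoImplicit false

namespace Pool.Agent.DSW

open Equiv Finset Function Pool.Agent.helper48.PP
open scoped ENNReal Classical

theorem CUT_mono {L : ℕ} (s : Fin L → ℕ)
    (h : ∀ i j : Fin L, (i : ℕ) + 1 = (j : ℕ) → s i < s j) : StrictMono s := by
  have key : ∀ (d : ℕ) (i j : Fin L), (i : ℕ) + (d + 1) = (j : ℕ) → s i < s j := by
    intro d
    induction d with
    | zero => intro i j hij; exact h i j hij
    | succ d ih =>
      intro i j hij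
      have hj : (i : ℕ) + (d + 1) < L := by have := j.2; omega
      have h1 := ih i ⟨(i : ℕ) + (d + 1), hj⟩ rfl
      have h2 := h ⟨(i : ℕ) + (d + 1), hj⟩ j (by simp only; omega)
      exact h1.trans h2
  intro i j hij
  have : (i : ℕ) < (j : ℕ) := hij
  exact key ((j : ℕ) - (i : ℕ) - 1) i j (by omega)

theorem CUT_cell {L : ℕ} {e e' : Arr L} {u : Fin L × Fin L} :
    cellAt e' u = cellAt e u ↔ e'.1 u.1 u.2 = e.1 u.1 u.2 ∧ e'.2 u.2 u.1 = e.2 u.2 u.1 := by
  unfold cellAt
  simp only [Prod.mk.injEq, true_and]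

theorem CUT_mov {L : ℕ} {e e' : Arr L} {u : Fin L × Fin L} :
    u ∉ mov e e' ↔ e'.1 u.1 u.2 = e.1 u.1 u.2 ∧ e'.2 u.2 u.1 = e.2 u.2 u.1 := by
  unfold mov
  rw [Finset.mem_filter, ← CUT_cell]
  simp

theorem CUT : CUT_stmt := by
  intro L m m' e e' R he he' hR hadj
  obtain ⟨h1, h2, h3, h4⟩ := he
  obtain ⟨h1', h2', h3', h4'⟩ := he'
  let e'' : Arr L := (fun b i => if (b, i) ∈ R then e'.1 b i else e.1 b i,
    fun i b => if (b, i) ∈ R then e'.2 i b else e.2 i b)
  have hin : ∀ u ∈ R, cellAt e'' u = cellAt e' u := by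
    intro u hu
    rw [CUT_cell]
    exact ⟨if_pos hu, if_pos hu⟩
  have hout : ∀ u ∉ R, cellAt e'' u = cellAt e u := by
    intro u hu
    rw [CUT_cell]
    exact ⟨if_neg hu, if_neg hu⟩
  have hsame : ∀ u v, u ∈ R → v ∉ R → Adj u v →
      e'.1 v.1 v.2 = e.1 v.1 v.2 ∧ e'.2 v.2 v.1 = e.2 v.2 v.1 := fun u v hu hv ha =>
    CUT_mov.1 (hadj u hu v hv ha)
  refine ⟨e'', ⟨?_, ?_, ?_, ?_⟩, ?_, hin, hout⟩
  · intro b
    apply CUT_mono
    intro i j hij
    show (if (b, i) ∈ R then e'.1 b i else e.1 b i) < if (b, j) ∈ R then e'.1 b j else e.1 b j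
    have hlt' : e'.1 b i < e'.1 b j := h1' b (by show (i : ℕ) < j; omega)
    have hlt : e.1 b i < e.1 b j := h1 b (by show (i : ℕ) < j; omega)
    by_cases hi : (b, i) ∈ R <;> by_cases hj : (b, j) ∈ R
    · rw [if_pos hi, if_pos hj]; exact hlt'
    · rw [if_pos hi, if_neg hj]
      have := (hsame (b, i) (b, j) hi hj (Or.inl ⟨rfl, Or.inl hij⟩)).1
      simp only at this
      rw [← this]; exact hlt'
    · rw [if_neg hi, if_pos hj]
      have := (hsame (b, j) (b, i) hj hi (Or.inl ⟨rfl, Or.inr hij⟩)).1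
      simp only at this
      rw [← this]; exact hlt'
    · rw [if_neg hi, if_neg hj]; exact hlt
  · intro i
    apply CUT_mono
    intro b c hbc
    show (if (b, i) ∈ R then e'.2 i b else e.2 i b) < if (c, i) ∈ R then e'.2 i c else e.2 i c
    have hlt' : e'.2 i b < e'.2 i c := h2' i (by show (b : ℕ) < c; omega)
    have hlt : e.2 i b < e.2 i c := h2 i (by show (b : ℕ) < c; omega)
    by_cases hi : (b, i) ∈ R <;> by_cases hj : (c, i) ∈ R
    · rw [if_pos hi, if_pos hj]; exact hlt'
    · rw [if_pos hi, if_neg hj]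
      have := (hsame (b, i) (c, i) hi hj (Or.inr ⟨rfl, Or.inl hbc⟩)).2
      simp only at this
      rw [← this]; exact hlt'
    · rw [if_neg hi, if_pos hj]
      have := (hsame (c, i) (b, i) hj hi (Or.inr ⟨rfl, Or.inr hbc⟩)).2
      simp only at this
      rw [← this]; exact hlt'
    · rw [if_neg hi, if_neg hj]; exact hlt
  · intro b i
    show (if (b, i) ∈ R then e'.1 b i else e.1 b i) < m b
    split_ifs
    · exact h3' b i
    · exact h3 b i
  · intro i b
    show (if (b, i) ∈ R then e'.2 i b else e.2 i b) < m' i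
    split_ifs
    · exact h4' i b
    · exact h4 i b
  · ext u
    constructor
    · intro hu
      by_contra hu'
      unfold mov at hu
      rw [Finset.mem_filter] at hu
      exact hu.2 (hout u hu')
    · intro hu
      have := hR hu
      unfold mov at this ⊢
      rw [Finset.mem_filter] at this ⊢
      exact ⟨Finset.mem_univ _, by rw [hin u hu]; exact this.2⟩

end Pool.Agent.DSW
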