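import Pool.Agent.helper71.DSW.SpecC

set_option autoImplicit false

namespace Pool.Agent.DSW

open Equiv Finset Function Pool.Agent.helper48.PP
open scoped ENNReal Classical

theorem PVL (hLNK : LNK_stmt) : PVL_stmt := by
  intro k l σ τ hav L H p hp0 hp1
  unfold Pav
  rw [← ENNReal.tsum_add]
  refine ENNReal.tsum_le_tsum fun m => ?_
  rw [← ENNReal.tsum_add]
  refine ENNReal.tsum_le_tsum fun m' => ?_
  rw [← mul_add]
  refine mul_le_mul_right ?_ _
  exact (ENNReal.ofReal_le_ofReal (hLNK k l σ τ hav _ _ p hp0 hp1)).trans ENNReal.ofReal_add_le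

end Pool.Agent.DSW
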